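import Pool.Agent.TH7.PG.Final

/-!
# Double character sums over pairs of sets nearly invariant under sets of bounded doubling
-/

set_option autoImplicit false

namespace Pool.Agent.Results.MP_f6e9a2_nt.BoundedDoublingPairs

open scoped Pointwise

/-- For all `ε > 0` and `K` there are `τ > 0` and `p₀` such that for every prime `p ≥ p₀`, every
nontrivial character `χ` modulo `p`, all sets `A₁`, `B₁` of doubling at most `K` with
`|A₁|, |B₁| > p^ε` and `|A₁||B₁| > p^(1/2+ε)` (the two sets need not be related to each other), all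
sets `A`, `B` with `|A + A₁| ≤ p^τ |A|` and `|B + B₁| ≤ p^τ |B|` (for instance `A = A₁`, `B = B₁`)
and all weights `f`, `g`, the bilinear form `∑ f(a) g(b) χ(a+b)` over `A × B` is at most
`p^(-τ) (|A||B|)^(1/2) ‖f‖₂ ‖g‖₂`. -/
theorem result :
    ∀ ε K : ℝ, 0 < ε →
      ∃ τ : ℝ, 0 < τ ∧ ∃ p₀ : ℕ, ∀ p : ℕ, p.Prime → p₀ ≤ p →
        ∀ χ : DirichletCharacter ℂ p, χ ≠ 1 → ∀ A₁ B₁ A B : Finset (ZMod p),
          (p : ℝ) ^ ε < A₁.card → (p : ℝ) ^ ε < B₁.card →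
          (p : ℝ) ^ (1 / 2 + ε) < (A₁.card : ℝ) * B₁.card →
          ((A₁ + A₁).card : ℝ) ≤ K * A₁.card → ((B₁ + B₁).card : ℝ) ≤ K * B₁.card →
          ((A + A₁).card : ℝ) ≤ (p : ℝ) ^ τ * A.card →
          ((B + B₁).card : ℝ) ≤ (p : ℝ) ^ τ * B.card →
          ∀ f g : ZMod p → ℂ,
            ‖∑ a ∈ A, ∑ b ∈ B, f a * g b * χ (a + b)‖ ≤
              (p : ℝ) ^ (-τ) * (Real.sqrt (A.card * B.card) *
                Real.sqrt ((∑ a ∈ A, ‖f a‖ ^ 2) * ∑ b ∈ B, ‖g b‖ ^ 2)) := by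
  intro ε K hε
  obtain ⟨τ, hτ, p₀, h⟩ := Pool.Agent.TH7.PG.bounded_doubling ε K hε
  refine ⟨τ, hτ, p₀, ?_⟩
  intro p hp hp₀ χ hχ A₁ B₁ A B h1 h2 h3 h4 h5 h6 h7 f g
  haveI : Fact p.Prime := ⟨hp⟩
  have h8 := h p hp₀ χ hχ A₁ B₁ A B h1 h2 h3 h4 h5 h6 h7 f g
  rw [Real.sqrt_mul (Nat.cast_nonneg _),
    Real.sqrt_mul (Finset.sum_nonneg fun a _ => by positivity)]
  exact h8

end Pool.Agent.Results.MP_f6e9a2_nt.BoundedDoublingPairs
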