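import Pool.Agent.TH7.PG.OneSided

/-!
# Double character sums: one set nearly invariant under a short progression, the other arbitrary
-/

set_option autoImplicit false

namespace Pool.Agent.Results.MP_f6e9a2_nt.ProgressionInvariantOneSet

open scoped Pointwise

/-- For every `ε > 0` there are `τ > 0` and `p₀` such that for every prime `p ≥ p₀`, every
nontrivial character `χ` modulo `p`, every `z ≠ 0` and all sets `A`, `B` such that
* `A` grows by a factor at most `p^τ` when the progression `{0, z, ..., (N-1) z}` with `N ≥ p^ε`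
  terms is added (for instance `A` is a union of progressions of length `p^ε` and difference `z`);
* no set of at most `p^(1+ε)` points of the plane contains `(a + b, a + b')` for more than
  `p^(-ε) |A||B|²` of the triples `(a, b, b')` in `A × B × B`,
and all weights `f`, `g`, the bilinear form `∑ f(a) g(b) χ(a+b)` over `A × B` is at most
`p^(-τ) (|A||B|)^(1/2) ‖f‖₂ ‖g‖₂`.  Nothing else is assumed about `A`, and no structure of `B`. -/
theorem result :
    ∀ ε : ℝ, 0 < ε →
      ∃ τ : ℝ, 0 < τ ∧ ∃ p₀ : ℕ, ∀ p : ℕ, p.Prime → p₀ ≤ p →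
        ∀ χ : DirichletCharacter ℂ p, χ ≠ 1 →
        ∀ (A B : Finset (ZMod p)) (z : ZMod p) (N : ℕ), z ≠ 0 → (p : ℝ) ^ ε ≤ N →
          ((A + (Finset.range N).image fun i : ℕ => (i : ZMod p) * z).card : ℝ) ≤
            (p : ℝ) ^ τ * A.card →
          (∀ X : Finset (ZMod p × ZMod p), (X.card : ℝ) ≤ (p : ℝ) ^ (1 + ε) →
            (((A ×ˢ (B ×ˢ B)).filter fun t => (t.1 + t.2.1, t.1 + t.2.2) ∈ X).card : ℝ) ≤
              (p : ℝ) ^ (-ε) * (A.card * (B.card : ℝ) ^ 2)) →
          ∀ f g : ZMod p → ℂ,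
            ‖∑ a ∈ A, ∑ b ∈ B, f a * g b * χ (a + b)‖ ≤
              (p : ℝ) ^ (-τ) * (Real.sqrt (A.card * B.card) *
                Real.sqrt ((∑ a ∈ A, ‖f a‖ ^ 2) * ∑ b ∈ B, ‖g b‖ ^ 2)) := by
  intro ε hε
  obtain ⟨τ, hτ, p₀, h⟩ := Pool.Agent.TH7.PG.one_sided ε hε
  refine ⟨τ, hτ, p₀, ?_⟩
  intro p hp hp₀ χ hχ A B z N h1 h2 h3 h4 f g
  haveI : Fact p.Prime := ⟨hp⟩
  have h8 := h p hp₀ χ hχ A B z N h1 h2 h3 h4 f g
  rw [Real.sqrt_mul (Nat.cast_nonneg _),
    Real.sqrt_mul (Finset.sum_nonneg fun a _ => by positivity)]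
  exact h8

end Pool.Agent.Results.MP_f6e9a2_nt.ProgressionInvariantOneSet
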