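import Pool.Agent.TH7.PG.HalfF

/-!
# Double character sums: `|A||B|N ≥ p^(1+ε)` with `A` nearly invariant under `N` steps, `B` arbitrary
-/

set_option autoImplicit false

namespace Pool.Agent.Results.MP_f6e9a2_nt.ProgressionTimesSizes

open scoped Pointwise

/-- For every `ε > 0` there are `τ > 0` and `p₀` such that for every prime `p ≥ p₀`, every
nontrivial character `χ` modulo `p`, every `z ≠ 0`, every `N ≥ p^ε` and all sets `A`, `B` such that
* `A` grows by a factor at most `p^τ` when the progression `{0, z, ..., (N-1) z}` is added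
  (for instance `A` is a union of progressions of length `N` and difference `z`, or of translates
  of such unions);
* `|B| ≥ p^ε` and `|A||B|N ≥ p^(1+ε)`,
and all weights `f`, `g`, the bilinear form `∑ f(a) g(b) χ(a+b)` over `A × B` is at most
`p^(-τ) (|A||B|)^(1/2) ‖f‖₂ ‖g‖₂`.  Nothing else is assumed about `A`, and no structure of `B`. -/
theorem result :
    ∀ ε : ℝ, 0 < ε →
      ∃ τ : ℝ, 0 < τ ∧ ∃ p₀ : ℕ, ∀ p : ℕ, p.Prime → p₀ ≤ p →
        ∀ χ : DirichletCharacter ℂ p, χ ≠ 1 →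
        ∀ (A B : Finset (ZMod p)) (z : ZMod p) (N : ℕ), z ≠ 0 → (p : ℝ) ^ ε ≤ N →
          ((A + (Finset.range N).image fun i : ℕ => (i : ZMod p) * z).card : ℝ) ≤
            (p : ℝ) ^ τ * A.card →
          (p : ℝ) ^ ε ≤ B.card → (p : ℝ) ^ (1 + ε) ≤ A.card * B.card * N →
          ∀ f g : ZMod p → ℂ,
            ‖∑ a ∈ A, ∑ b ∈ B, f a * g b * χ (a + b)‖ ≤
              (p : ℝ) ^ (-τ) * (Real.sqrt (A.card * B.card) *
                Real.sqrt ((∑ a ∈ A, ‖f a‖ ^ 2) * ∑ b ∈ B, ‖g b‖ ^ 2)) := by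
  intro ε hε
  obtain ⟨τ, hτ, p₀, h⟩ := Pool.Agent.TH7.PG.half ε hε
  refine ⟨τ, hτ, p₀, ?_⟩
  intro p hp hp₀ χ hχ A B z N h1 h2 h3 h4 h5 f g
  haveI : Fact p.Prime := ⟨hp⟩
  have h8 := h p hp₀ χ hχ A B z N h1 h2 h3 h4 h5 f g
  rw [Real.sqrt_mul (Nat.cast_nonneg _),
    Real.sqrt_mul (Finset.sum_nonneg fun a _ => by positivity)]
  exact h8

end Pool.Agent.Results.MP_f6e9a2_nt.ProgressionTimesSizes
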